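import Mathlib

/-!
An obstruction to quotients of CA-groups by abelian normal subgroups.
-/

set_option autoImplicit false

universe u

namespace Pool.Agent.KS6_83.DQ

/-- The centralizer of every nontrivial element is abelian. -/
def IsCA (G : Type u) [Group G] : Prop :=
  ∀ g : G, g ≠ 1 → ∀ x y : G, x * g = g * x → y * g = g * y → x * y = y * x

/-- arithmetic in a dicyclic group -/
theorem arith {Q : Type u} [Group Q] (b y : Q) (hy1 : y ≠ 1) (p : ℕ) (hp : Odd p)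
    (hyp : y ^ p = 1) (hby : b * y * b⁻¹ = y⁻¹) :
    y ^ 2 ≠ 1 ∧ y ^ 4 ≠ 1 ∧ Commute (b ^ 2) y ∧ ¬ Commute b (y * b * y⁻¹) ∧ ¬ Commute b y := by
  have hy2 : y ^ 2 ≠ 1 := by
    intro h2
    obtain ⟨r, rfl⟩ := hp
    rw [pow_succ, pow_mul, h2, one_pow, one_mul] at hyp
    exact hy1 hyp
  have hy4 : y ^ 4 ≠ 1 := by
    intro h4
    obtain ⟨r, hr⟩ := hp
    rcases Nat.even_or_odd r with ⟨s, hs⟩ | ⟨s, hs⟩
    · have : p = 4 * s + 1 := by omega
      rw [this, pow_succ, pow_mul, h4, one_pow, one_mul] at hyp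
      exact hy1 hyp
    · have : p = 4 * s + 3 := by omega
      rw [this, pow_add, pow_mul, h4, one_pow, one_mul] at hyp
      apply hy1
      have : y = y ^ 4 := by rw [pow_succ, hyp, one_mul]
      rw [this, h4]
  have h1 : b * y = y⁻¹ * b := by
    rw [← hby]; group
  have h2 : b * y⁻¹ = y * b := by
    have h3 : b * y⁻¹ * b⁻¹ = y := by
      have h3 := congrArg (·⁻¹) hby
      simpa [mul_assoc] using h3
    calc b * y⁻¹ = (b * y⁻¹ * b⁻¹) * b := by group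
      _ = y * b := by rw [h3]
  refine ⟨hy2, hy4, ?_, ?_, ?_⟩
  · change b ^ 2 * y = y * b ^ 2
    rw [pow_two, mul_assoc, h1, ← mul_assoc, h2, mul_assoc]
  · intro h
    have h3 : b * (y * b * y⁻¹) = (y * b * y⁻¹) * b := h
    have h4 : y * b * y⁻¹ = y * (y * b) := by rw [mul_assoc, h2]
    rw [h4] at h3
    have h5 : b * (y * (y * b)) = y⁻¹ * (y⁻¹ * (b * b)) := by
      rw [← mul_assoc, h1, mul_assoc, ← mul_assoc b y b, h1, mul_assoc]
    have h6 : y⁻¹ * (y⁻¹ * (b * b)) = y * (y * (b * b)) := by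
      rw [← h5, h3]
      simp only [mul_assoc]
    have h7 : y⁻¹ * y⁻¹ = y * y := by
      have := congrArg (· * (b * b)⁻¹) h6
      simpa [mul_assoc] using this
    apply hy4
    calc y ^ 4 = (y * y) * (y * y) := by rw [← pow_two, ← pow_two, ← pow_mul]
      _ = (y⁻¹ * y⁻¹) * (y * y) := by rw [h7]
      _ = 1 := by group
  · intro h
    have h3 : b * y = y * b := h
    rw [h1] at h3
    have h4 : y⁻¹ = y := mul_right_cancel h3
    apply hy2
    calc y ^ 2 = y * y := pow_two y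
      _ = y⁻¹ * y := by rw [h4]
      _ = 1 := inv_mul_cancel y

/-- The inductive computation of powers of `e Y`. -/
theorem pow_aux {G : Type u} [Group G] (N : Subgroup G) [hN : N.Normal]
    (hab : ∀ x ∈ N, ∀ y ∈ N, x * y = y * x) (e n Y : G) (he : e ∈ N) (hn : n ∈ N)
    (h : Y * e * Y⁻¹ = n⁻¹ * e * n⁻¹) (j : ℕ) :
    ∃ S ∈ N, (e * Y) ^ j = e ^ j * (S * S) * Y ^ j := by
  induction j with
  | zero => exact ⟨1, N.one_mem, by simp⟩
  | succ j ih =>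
    obtain ⟨S, hS, hj⟩ := ih
    have hT : Y * S * Y⁻¹ ∈ N := hN.conj_mem S hS Y
    have hne : Commute n e := hab n hn e he
    have hnT : Commute n (Y * S * Y⁻¹) := hab n hn _ hT
    refine ⟨(n ^ j)⁻¹ * (Y * S * Y⁻¹), N.mul_mem (N.inv_mem (N.pow_mem hn j)) hT, ?_⟩
    have h1 : (n⁻¹ * e * n⁻¹) ^ j = e ^ j * ((n ^ j)⁻¹ * (n ^ j)⁻¹) := by
      have h2 : n⁻¹ * e * n⁻¹ = e * (n⁻¹ * n⁻¹) := by
        rw [(hne.inv_left).eq, mul_assoc]
      rw [h2, Commute.mul_pow, ← pow_two, ← pow_two, ← inv_pow, ← pow_mul, ← pow_mul, mul_comm]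
      exact (hne.inv_left.symm).mul_right hne.inv_left.symm
    calc (e * Y) ^ (j + 1) = e * Y * (e ^ j * (S * S) * Y ^ j) := by rw [pow_succ', hj]
      _ = e * (Y * e * Y⁻¹) ^ j * ((Y * S * Y⁻¹) * (Y * S * Y⁻¹)) * Y ^ (j + 1) := by
          rw [conj_pow, pow_succ' Y]
          simp only [mul_assoc, inv_mul_cancel_left]
      _ = e ^ (j + 1) * ((n ^ j)⁻¹ * (Y * S * Y⁻¹) * ((n ^ j)⁻¹ * (Y * S * Y⁻¹))) *
            Y ^ (j + 1) := by
          rw [h, h1]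
          congr 1
          have h3 : Commute (Y * S * Y⁻¹) (n ^ j)⁻¹ := (hnT.symm.pow_right j).inv_right
          generalize Y * S * Y⁻¹ = T at h3
          rw [pow_succ' e]
          calc e * (e ^ j * ((n ^ j)⁻¹ * (n ^ j)⁻¹)) * (T * T)
              = e * e ^ j * ((n ^ j)⁻¹ * ((n ^ j)⁻¹ * T) * T) := by simp only [mul_assoc]
            _ = e * e ^ j * ((n ^ j)⁻¹ * (T * (n ^ j)⁻¹) * T) := by rw [h3.eq]
            _ = e * e ^ j * ((n ^ j)⁻¹ * T * ((n ^ j)⁻¹ * T)) := by simp only [mul_assoc]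

/-- **The obstruction.** In the quotient of a CA-group by an abelian normal subgroup there are no
elements `b`, `y` with `b ^ 4 = 1 ≠ b ^ 2`, `y ≠ 1`, `y ^ p = 1` for an odd number `p`, and
`b y b⁻¹ = y⁻¹`. -/
theorem obstruction {G : Type u} [Group G] (N : Subgroup G) [hN : N.Normal] (hG : IsCA G)
    (hab : ∀ x ∈ N, ∀ y ∈ N, x * y = y * x) (b y : G ⧸ N)
    (hb4 : b ^ 4 = 1) (hb2 : b ^ 2 ≠ 1) (hy1 : y ≠ 1) (p : ℕ) (hp : Odd p) (hyp : y ^ p = 1)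
    (hby : b * y * b⁻¹ = y⁻¹) : False := by
  obtain ⟨hy2, hy4, hzy, hnc, hnc'⟩ := arith b y hy1 p hp hyp hby
  have ca : ∀ {g x y : G}, g ≠ 1 → Commute x g → Commute y g → Commute x y :=
    fun hg hx hy => hG _ hg _ _ hx hy
  obtain ⟨B, rfl⟩ := QuotientGroup.mk_surjective b
  obtain ⟨Y₀, rfl⟩ := QuotientGroup.mk_surjective y
  set b : G ⧸ N := (B : G ⧸ N) with hb
  set y : G ⧸ N := (Y₀ : G ⧸ N) with hy
  have mem : ∀ g : G, g ∈ N ↔ (g : G ⧸ N) = 1 := fun g => (QuotientGroup.eq_one_iff g).symm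
  have hB2 : ((B ^ 2 : G) : G ⧸ N) = b ^ 2 := rfl
  have hB21 : B ^ 2 ≠ 1 := fun h => hb2 (by rw [← hB2, h]; rfl)
  -- lifts of `b ^ 2` act without fixed points
  have fpf : ∀ Z : G, (Z : G ⧸ N) = b ^ 2 → ∀ n ∈ N, Commute Z n → n = 1 := by
    intro Z hZ n hn hc
    by_contra hn1
    have hm : Z⁻¹ * B ^ 2 ∈ N := by
      rw [mem, QuotientGroup.mk_mul, QuotientGroup.mk_inv, hZ, hB2, inv_mul_cancel]
    have h1 : Commute (B ^ 2) n := by
      have h2 : Commute (Z * (Z⁻¹ * B ^ 2)) n := hc.mul_left (hab _ hm _ hn)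
      rwa [mul_inv_cancel_left] at h2
    have h2 : Commute B n := ca hB21 ((Commute.refl B).pow_right 2) h1.symm
    have h3 : ∀ m ∈ N, Commute B m := fun m hm => ca hn1 h2 (hab _ hm _ hn)
    have h4 : Commute (Y₀ * B * Y₀⁻¹) n := by
      have h5 : Y₀⁻¹ * n * Y₀ ∈ N := by
        have := hN.conj_mem n hn Y₀⁻¹
        rwa [inv_inv] at this
      have h6 := (h3 _ h5)
      have h7 := h6.eq
      change Y₀ * B * Y₀⁻¹ * n = n * (Y₀ * B * Y₀⁻¹)
      calc Y₀ * B * Y₀⁻¹ * n = Y₀ * (B * (Y₀⁻¹ * n * Y₀)) * Y₀⁻¹ := by group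
        _ = Y₀ * ((Y₀⁻¹ * n * Y₀) * B) * Y₀⁻¹ := by rw [h7]
        _ = n * (Y₀ * B * Y₀⁻¹) := by group
    have h5 : Commute B (Y₀ * B * Y₀⁻¹) := ca hn1 h2 h4
    exact hnc (by
      have h6 := congrArg (QuotientGroup.mk : G → G ⧸ N) h5.eq
      exact h6)
  have hsq : ∀ Z : G, (Z : G ⧸ N) = b ^ 2 → Z * Z = 1 := by
    intro Z hZ
    refine fpf Z hZ _ ?_ ((Commute.refl Z).mul_right (Commute.refl Z))
    rw [mem, QuotientGroup.mk_mul, hZ, ← pow_add]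
    exact hb4
  have hinv : ∀ Z : G, (Z : G ⧸ N) = b ^ 2 → ∀ n ∈ N, Z * n * Z⁻¹ = n⁻¹ := by
    intro Z hZ n hn
    have h1 := hsq (Z * n) (by
      rw [QuotientGroup.mk_mul, hZ, (mem n).1 hn, mul_one])
    have h2 : Z⁻¹ = Z := inv_eq_of_mul_eq_one_left (hsq Z hZ)
    rw [h2]
    exact eq_inv_of_mul_eq_one_left (by simpa only [mul_assoc] using h1)
  -- lifts of `y` act without fixed points
  have fpfY : ∀ Y : G, (Y : G ⧸ N) = y → ∀ n ∈ N, Commute Y n → n = 1 := by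
    intro Y hY n hn hc
    by_contra hn1
    have hZ := hsq (B ^ 2) hB2
    set Z := B ^ 2
    have hg : ((Z * Y * (Z * Y) : G) : G ⧸ N) = y ^ 2 := by
      rw [QuotientGroup.mk_mul, QuotientGroup.mk_mul, hB2, hY, ← pow_two, hzy.mul_pow, ← pow_mul,
        hb4, one_mul]
    have hg1 : Z * Y * (Z * Y) ≠ 1 := by
      intro h
      rw [h] at hg
      exact hy2 hg.symm
    have h1 : Y⁻¹ * (Z * Y * Z⁻¹) ∈ N := by
      rw [mem, QuotientGroup.mk_mul, QuotientGroup.mk_mul, QuotientGroup.mk_mul,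
        QuotientGroup.mk_inv, QuotientGroup.mk_inv, hB2, hY, hzy.eq]
      group
    have h2 : Z * Y * (Z * Y) = Y * (Y⁻¹ * (Z * Y * Z⁻¹)) * Y := by
      have h3 : Z⁻¹ = Z := inv_eq_of_mul_eq_one_left hZ
      rw [mul_inv_cancel_left, h3]
      simp only [mul_assoc]
    have h3 : Commute (Z * Y * (Z * Y)) n := by
      rw [h2]
      exact (hc.mul_left (hab _ h1 _ hn)).mul_left hc
    have h4 : Commute (Z * Y) n := ca hg1 ((Commute.refl _).mul_right (Commute.refl _)) h3.symm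
    have h5 : Commute Z n := by
      have h6 : Commute (Z * Y * Y⁻¹) n := h4.mul_left hc.inv_left
      rwa [mul_inv_cancel_right] at h6
    exact hn1 (fpf Z hB2 n hn h5)
  -- commuting lifts
  have hpow : (b ^ 2) ^ p = b ^ 2 := by
    obtain ⟨r, rfl⟩ := hp
    rw [pow_succ, pow_mul, ← pow_mul b 2 2, hb4, one_pow, one_mul]
  set a := B ^ 2 * Y₀ with ha
  have ha' : (a : G ⧸ N) = b ^ 2 * y := rfl
  set Z := a ^ p with hZdef
  set Y := a ^ (p + 1) with hYdef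
  have hZ : (Z : G ⧸ N) = b ^ 2 := by
    rw [hZdef, QuotientGroup.mk_pow, ha', hzy.mul_pow, hyp, hpow, mul_one]
  have hY : (Y : G ⧸ N) = y := by
    rw [hYdef, QuotientGroup.mk_pow, ha', hzy.mul_pow, pow_succ y, hyp, pow_succ (b ^ 2), hpow,
      ← pow_add, hb4, one_mul, one_mul]
  have hZY : Commute Z Y := (Commute.refl a).pow_pow _ _
  have hZ1 : Z ≠ 1 := by
    intro h
    rw [h] at hZ
    exact hb2 hZ.symm
  -- the conjugate of `Z` by `B`
  set e := Z⁻¹ * (B * Z * B⁻¹) with he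
  set n := Y * (B * Y * B⁻¹) with hn
  have heN : e ∈ N := by
    rw [mem, he, QuotientGroup.mk_mul, QuotientGroup.mk_mul, QuotientGroup.mk_mul,
      QuotientGroup.mk_inv, QuotientGroup.mk_inv, hZ, ← hb]
    group
  have hnN : n ∈ N := by
    rw [mem, hn, QuotientGroup.mk_mul, QuotientGroup.mk_mul, QuotientGroup.mk_mul,
      QuotientGroup.mk_inv, hY, ← hb, hby, mul_inv_cancel]
  have hen : Commute e n := hab _ heN _ hnN
  have hrel : Y * e * Y⁻¹ = n⁻¹ * e * n⁻¹ := by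
    have h1 : Commute (B * Z * B⁻¹) (B * Y * B⁻¹) := by
      change B * Z * B⁻¹ * (B * Y * B⁻¹) = B * Y * B⁻¹ * (B * Z * B⁻¹)
      calc B * Z * B⁻¹ * (B * Y * B⁻¹) = B * (Z * Y) * B⁻¹ := by group
        _ = B * (Y * Z) * B⁻¹ := by rw [hZY.eq]
        _ = B * Y * B⁻¹ * (B * Z * B⁻¹) := by group
    have h2 : B * Z * B⁻¹ = Z * e := by rw [he, mul_inv_cancel_left]
    have h3 : B * Y * B⁻¹ = Y⁻¹ * n := by rw [hn, inv_mul_cancel_left]
    rw [h2, h3] at h1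
    have h4 : Z * e * (Y⁻¹ * n) = Y⁻¹ * n * (Z * e) := h1
    have h5 : n * Z = Z * n⁻¹ := by
      have h8 := hinv Z hZ n⁻¹ (N.inv_mem hnN)
      rw [inv_inv] at h8
      calc n * Z = (Z * n⁻¹ * Z⁻¹) * Z := by rw [h8]
        _ = Z * n⁻¹ := by group
    have h6 : Y⁻¹ * n * (Z * e) = Z * (Y⁻¹ * n⁻¹ * e) := by
      calc Y⁻¹ * n * (Z * e) = Y⁻¹ * (n * Z) * e := by group
        _ = (Y⁻¹ * Z) * n⁻¹ * e := by rw [h5]; group
        _ = (Z * Y⁻¹) * n⁻¹ * e := by rw [(hZY.inv_right).eq]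
        _ = Z * (Y⁻¹ * n⁻¹ * e) := by group
    rw [h6, mul_assoc] at h4
    have h7 : e * (Y⁻¹ * n) = Y⁻¹ * n⁻¹ * e := mul_left_cancel h4
    calc Y * e * Y⁻¹ = Y * (e * (Y⁻¹ * n)) * n⁻¹ := by group
      _ = Y * (Y⁻¹ * n⁻¹ * e) * n⁻¹ := by rw [h7]
      _ = n⁻¹ * e * n⁻¹ := by group
  -- `e` is a square
  obtain ⟨S, hS, hj⟩ := pow_aux N hab e n Y heN hnN hrel p
  have hYp : ∀ W : G, (W : G ⧸ N) = y → W ^ p = 1 := by
    intro W hW
    refine fpfY W hW _ ?_ ((Commute.refl W).pow_right p)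
    rw [mem, QuotientGroup.mk_pow, hW, hyp]
  rw [hYp Y hY, hYp (e * Y) (by rw [QuotientGroup.mk_mul, (mem e).1 heN, hY, one_mul]),
    mul_one] at hj
  obtain ⟨s, hs, hes⟩ : ∃ s ∈ N, e = s * s := by
    obtain ⟨r, hr⟩ := hp
    have hSe : Commute S e := hab _ hS _ heN
    refine ⟨S⁻¹ * (e ^ r)⁻¹, N.mul_mem (N.inv_mem hS) (N.inv_mem (N.pow_mem heN r)), ?_⟩
    have h1 : e ^ p = (S * S)⁻¹ := eq_inv_of_mul_eq_one_left hj.symm
    have h2 : e ^ p = e ^ r * e ^ r * e := by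
      rw [hr, pow_succ, two_mul, pow_add]
    have h3 : e = (e ^ r)⁻¹ * (e ^ r)⁻¹ * (S * S)⁻¹ := by
      rw [← h1, h2]; group
    have h4 : Commute S⁻¹ (e ^ r)⁻¹ := ((hSe.pow_right r).inv_left).inv_right
    calc e = (e ^ r)⁻¹ * (e ^ r)⁻¹ * (S * S)⁻¹ := h3
      _ = (e ^ r)⁻¹ * (((e ^ r)⁻¹ * S⁻¹) * S⁻¹) := by
          rw [mul_inv_rev]; simp only [mul_assoc]
      _ = (e ^ r)⁻¹ * (S⁻¹ * (e ^ r)⁻¹ * S⁻¹) := by rw [h4.eq]
      _ = ((e ^ r)⁻¹ * S⁻¹) * ((e ^ r)⁻¹ * S⁻¹) := by simp only [mul_assoc]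
      _ = S⁻¹ * (e ^ r)⁻¹ * (S⁻¹ * (e ^ r)⁻¹) := by rw [h4.eq]
  -- a lift of `b` commuting with `Z`
  set m := B⁻¹ * s * B with hm
  have hmN : m ∈ N := by
    have := hN.conj_mem s hs B⁻¹
    rwa [inv_inv] at this
  have hBm : Commute (B * m) Z := by
    have h1 : m * Z = Z * m⁻¹ := by
      have := hinv Z hZ m⁻¹ (N.inv_mem hmN)
      rw [inv_inv] at this
      calc m * Z = Z * m⁻¹ * Z⁻¹ * Z := by rw [this]
        _ = Z * m⁻¹ := by group
    have h2 : B * Z * B⁻¹ = Z * (s * s) := by rw [← hes, he, mul_inv_cancel_left]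
    change B * m * Z = Z * (B * m)
    calc B * m * Z = B * (m * Z) := mul_assoc _ _ _
      _ = B * (Z * m⁻¹) := by rw [h1]
      _ = (B * Z * B⁻¹) * (B * m⁻¹) := by group
      _ = Z * (s * s) * (B * m⁻¹) := by rw [h2]
      _ = Z * (B * m) := by rw [hm]; group
  have hcomm : Commute (B * m) Y := ca hZ1 hBm hZY.symm
  refine hnc' ?_
  have h1 : ((B * m * Y : G) : G ⧸ N) = ((Y * (B * m) : G) : G ⧸ N) :=
    congrArg (QuotientGroup.mk : G → G ⧸ N) hcomm.eq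
  have h2 : ((m : G) : G ⧸ N) = 1 := (mem m).1 hmN
  clear_value m
  rw [QuotientGroup.mk_mul, QuotientGroup.mk_mul, QuotientGroup.mk_mul, QuotientGroup.mk_mul,
    h2, hY, mul_one] at h1
  exact h1

end Pool.Agent.KS6_83.DQ
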