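import Pool.Agent.KS6_83.DQ.A
import Pool.Graph.R_seed8.R630.CAQ.Quat

/-!
Dicyclic quotients of CA-groups by abelian normal subgroups.
-/

set_option autoImplicit false

universe u

namespace Pool.Agent.KS6_83.DQ

open QuaternionGroup

/-- only the dicyclic groups of order `4 * 2 ^ e` are quotients of CA-groups by abelian normal
subgroups -/
theorem dicyclic {G : Type u} [Group G] (N : Subgroup G) [hN : N.Normal] (hG : IsCA G)
    (hab : ∀ x ∈ N, ∀ y ∈ N, x * y = y * x) (k : ℕ) (hk : k ≠ 0) (f : G ⧸ N ≃* QuaternionGroup k) :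
    ∃ e : ℕ, k = 2 ^ e := by
  obtain ⟨e, m, hm, hkm⟩ := Nat.exists_eq_two_pow_mul_odd hk
  by_cases hm1 : m = 1
  · exact ⟨e, by rw [hkm, hm1, mul_one]⟩
  exfalso
  have hm0 : 0 < m := hm.pos
  have hm2 : 1 < m := by omega
  have hcast : ((2 * k : ℕ) : ZMod (2 * k)) = 0 := ZMod.natCast_self _
  let y : QuaternionGroup k := a ((2 * 2 ^ e : ℕ) : ZMod (2 * k))
  let b : QuaternionGroup k := xa 0
  have hapow : ∀ (i : ZMod (2 * k)) (j : ℕ), (a i : QuaternionGroup k) ^ j =
      a ((j : ZMod (2 * k)) * i) := by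
    intro i j
    induction j with
    | zero => rw [pow_zero, one_def, Nat.cast_zero, zero_mul]
    | succ j ih =>
      rw [pow_succ, ih, a_mul_a]
      congr 1
      push_cast
      ring
  have hb2 : b ^ 2 = a (k : ZMod (2 * k)) := by
    rw [pow_two]
    change xa 0 * xa 0 = _
    rw [xa_mul_xa]
    congr 1
    ring
  have hb4 : b ^ 4 = 1 := by
    rw [show 4 = 2 * 2 from rfl, pow_mul, hb2, hapow, one_def]
    congr 1
    rw [← hcast, Nat.cast_mul]
  have hb21 : b ^ 2 ≠ 1 := by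
    rw [hb2, one_def]
    intro h
    have h1 := QuaternionGroup.a.inj h
    rw [ZMod.natCast_eq_zero_iff] at h1
    have h2 := Nat.le_of_dvd (by omega) h1
    omega
  have hy1 : y ≠ 1 := by
    rw [one_def]
    intro h
    have h1 := QuaternionGroup.a.inj h
    rw [ZMod.natCast_eq_zero_iff] at h1
    have h2 := Nat.le_of_dvd (by positivity) h1
    have h3 : 2 ^ e * m ≤ 2 ^ e * 1 := by omega
    have h4 := Nat.le_of_mul_le_mul_left h3 (by positivity)
    omega
  have hym : y ^ m = 1 := by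
    change (a _) ^ m = _
    rw [hapow, one_def]
    congr 1
    rw [← Nat.cast_mul, show m * (2 * 2 ^ e) = 2 * k by rw [hkm]; ring]
    exact hcast
  have hby : b * y * b⁻¹ = y⁻¹ := by
    rw [mul_inv_eq_iff_eq_mul]
    change xa 0 * a _ = (a _)⁻¹ * xa 0
    rw [xa_mul_a]
    change _ = a (-_) * xa 0
    rw [a_mul_xa]
    congr 1
    ring
  refine obstruction N hG hab (f.symm b) (f.symm y) ?_ ?_ ?_ m hm ?_ ?_
  · rw [← map_pow, hb4, map_one]
  · rw [← map_pow]
    intro h
    exact hb21 ((map_eq_one_iff _ f.symm.injective).1 h)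
  · intro h
    exact hy1 ((map_eq_one_iff _ f.symm.injective).1 h)
  · rw [← map_pow, hym, map_one]
  · rw [← map_mul, ← map_inv, ← map_mul, hby, map_inv]

/-- the powers of two do occur -/
theorem powers (e : ℕ) :
    ∃ (Γ : Type) (_ : Group Γ) (_ : TopologicalSpace Γ) (_ : IsTopologicalGroup Γ)
      (_ : CompactSpace Γ) (_ : T2Space Γ) (_ : TotallyDisconnectedSpace Γ), IsCA Γ ∧
      ∃ (N : Subgroup Γ) (_ : N.Normal), IsClosed (N : Set Γ) ∧ IsOpen (N : Set Γ) ∧
        (∀ x ∈ N, ∀ y ∈ N, x * y = y * x) ∧ Nonempty (Γ ⧸ N ≃* QuaternionGroup (2 ^ e)) :=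
  Pool.Agent.R630.CAQ.final (e + 2)

end Pool.Agent.KS6_83.DQ
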